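import Mathlib

/-!
# Algebraic entropy and invariant uniform discrete subgroups

For a Hausdorff locally compact abelian group `G`, a continuous endomorphism `φ` of `G` and a
`φ`-invariant discrete cocompact subgroup `K`, the algebraic entropy of `φ` equals the algebraic
entropy of the restriction of `φ` to `K`.
-/

open MeasureTheory Filter Topology Set
open scoped Pointwise

namespace Pool.Agent.Results.MP_5d7a45_an.UniformDiscrete

/-- The partial trajectory `T_n(φ, U) = U + φ(U) + ⋯ + φ^{n-1}(U)` (a Minkowski sum of sets). -/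
def traj {G : Type*} [AddCommGroup G] (φ : G →+ G) (U : Set G) (n : ℕ) : Set G :=
  ∑ i ∈ Finset.range n, (φ^[i]) '' U

/-- `H_A(φ, U) = limsup_n (log μ(T_n(φ, U))) / n`, as an extended real number. -/
noncomputable def entropyAt {G : Type*} [AddCommGroup G] [MeasurableSpace G]
    (μ : Measure G) (φ : G →+ G) (U : Set G) : EReal :=
  limsup (fun n : ℕ => ENNReal.log (μ (traj φ U n)) / (n : EReal)) atTop

/-- The algebraic entropy `h_A(φ)`: the supremum of `H_A(φ, U)` over all compact neighbourhoods
`U` of `0`; the measure `μ` is meant to be a Haar measure of `G`. -/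
noncomputable def algEntropy {G : Type*} [AddCommGroup G] [TopologicalSpace G] [MeasurableSpace G]
    (μ : Measure G) (φ : G →+ G) : EReal :=
  ⨆ (U : Set G) (_ : IsCompact U) (_ : U ∈ 𝓝 (0 : G)), entropyAt μ φ U

/-- The restriction of an endomorphism `φ` of `G` to a `φ`-invariant subgroup `K`. -/
def restrictEnd {G : Type*} [AddCommGroup G] (φ : G →+ G) (K : AddSubgroup G)
    (hK : ∀ x ∈ K, φ x ∈ K) : K →+ K :=
  (φ.comp K.subtype).codRestrict K (fun x => hK x x.2)

section aux

variable {G : Type*} [AddCommGroup G]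

theorem traj_zero (φ : G →+ G) (U : Set G) : traj φ U 0 = {0} := by
  simp only [traj, Finset.range_zero, Finset.sum_empty]
  rfl

theorem traj_succ (φ : G →+ G) (U : Set G) (n : ℕ) :
    traj φ U (n + 1) = U + φ '' (traj φ U n) := by
  induction n with
  | zero => simp [traj]
  | succ n ih =>
    have h1 : traj φ U (n + 2) = traj φ U (n + 1) + (φ^[n + 1]) '' U := by
      rw [traj, Finset.sum_range_succ]; rfl
    have h2 : traj φ U (n + 1) = traj φ U n + (φ^[n]) '' U := by
      rw [traj, Finset.sum_range_succ]; rfl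
    rw [h1]
    nth_rewrite 1 [ih]
    rw [h2, Set.image_add, add_assoc]
    congr 2
    rw [← Set.image_comp, ← Function.iterate_succ']

theorem traj_mono (φ : G →+ G) {U V : Set G} (h : U ⊆ V) (n : ℕ) :
    traj φ U n ⊆ traj φ V n := by
  induction n with
  | zero => simp [traj_zero]
  | succ n ih =>
    rw [traj_succ, traj_succ]
    exact Set.add_subset_add h (Set.image_mono ih)

theorem zero_mem_traj (φ : G →+ G) {U : Set G} (h : (0 : G) ∈ U) (n : ℕ) :
    (0 : G) ∈ traj φ U n := by
  induction n with
  | zero => simp [traj_zero]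
  | succ n ih =>
    rw [traj_succ]
    exact ⟨0, h, φ 0, ⟨0, ih, rfl⟩, by simp⟩

theorem traj_finite (φ : G →+ G) {U : Set G} (h : U.Finite) (n : ℕ) :
    (traj φ U n).Finite := by
  induction n with
  | zero => simp [traj_zero]
  | succ n ih =>
    rw [traj_succ]
    exact h.add (ih.image _)

theorem image_traj (φ : G →+ G) (K : AddSubgroup G) (hK : ∀ x ∈ K, φ x ∈ K) (V : Set K) (n : ℕ) :
    ((↑) : K → G) '' (traj (restrictEnd φ K hK) V n) = traj φ (((↑) : K → G) '' V) n := by
  induction n with
  | zero => simp [traj_zero]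
  | succ n ih =>
    rw [traj_succ, traj_succ, ← ih]
    have h1 : ((↑) : K → G) '' (V + (restrictEnd φ K hK) '' traj (restrictEnd φ K hK) V n) =
        ((↑) : K → G) '' V + ((↑) : K → G) '' ((restrictEnd φ K hK) '' traj (restrictEnd φ K hK) V n) :=
      Set.image_add K.subtype
    rw [h1, ← Set.image_comp, ← Set.image_comp]
    rfl

/-- The Horner scheme: trajectories of `C` are covered by translates of `C` by the trajectory of
a finite set. -/
theorem traj_subset (φ : G →+ G) {C F : Set G} (h0 : (0 : G) ∈ C) (hC : φ '' C + C ⊆ F + C)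
    (n : ℕ) : traj φ C n ⊆ traj φ F n + C := by
  induction n with
  | zero =>
    rw [traj_zero, traj_zero]
    rintro x rfl
    exact ⟨0, rfl, 0, h0, by simp⟩
  | succ n ih =>
    rw [traj_succ, traj_succ]
    calc C + φ '' traj φ C n ⊆ C + φ '' (traj φ F n + C) := by gcongr
      _ = φ '' (traj φ F n) + (φ '' C + C) := by
          rw [Set.image_add, add_comm C, add_assoc]
      _ ⊆ φ '' (traj φ F n) + (F + C) := by gcongr
      _ = F + φ '' (traj φ F n) + C := by
          rw [← add_assoc, add_comm F]

end aux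

/-- If `a n ≤ A * b n` eventually, with `A` a positive finite constant, then the exponential growth
rate of `a` is at most that of `b`. -/
theorem growth_le {a b : ℕ → ENNReal} {A : ENNReal} (hA0 : A ≠ 0) (hA : A ≠ ⊤)
    (h : ∀ᶠ n in atTop, a n ≤ A * b n) :
    limsup (fun n : ℕ => ENNReal.log (a n) / (n : EReal)) atTop ≤
      limsup (fun n : ℕ => ENNReal.log (b n) / (n : EReal)) atTop := by
  have hlim : Tendsto (fun n : ℕ => ENNReal.log A / (n : EReal)) atTop (𝓝 0) := by
    rw [ENNReal.log_pos_real hA0 hA]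
    have h1 : Tendsto (fun n : ℕ => (Real.log A.toReal) / (n : ℝ)) atTop (𝓝 0) :=
      tendsto_const_div_atTop_nhds_zero_nat _
    have h2 := (continuous_coe_real_ereal.tendsto (0 : ℝ)).comp h1
    refine h2.congr ?_
    intro n
    simp [Function.comp, EReal.coe_div]
  have hl : limsup (fun n : ℕ => ENNReal.log A / (n : EReal)) atTop = 0 := hlim.limsup_eq
  calc limsup (fun n : ℕ => ENNReal.log (a n) / (n : EReal)) atTop
      ≤ limsup (fun n : ℕ => ENNReal.log A / (n : EReal) + ENNReal.log (b n) / (n : EReal))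
          atTop := by
        refine limsup_le_limsup ?_
        filter_upwards [h] with n hn
        rw [← EReal.add_div_of_nonneg_right (by positivity), ← ENNReal.log_mul_add]
        exact EReal.div_le_div_right_of_nonneg (by positivity) (ENNReal.log_le_log hn)
    _ ≤ limsup (fun n : ℕ => ENNReal.log A / (n : EReal)) atTop +
          limsup (fun n : ℕ => ENNReal.log (b n) / (n : EReal)) atTop := by
        refine EReal.limsup_add_le ?_ ?_
        · left; rw [hl]; simp
        · left; rw [hl]; simp
    _ = limsup (fun n : ℕ => ENNReal.log (b n) / (n : EReal)) atTop := by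
        rw [hl, zero_add]

section main

variable {G : Type*} [AddCommGroup G] [TopologicalSpace G] [IsTopologicalAddGroup G] [T2Space G]
  [LocallyCompactSpace G] [MeasurableSpace G] [BorelSpace G]

/-- The Haar measure of a finite subset of a discrete group. -/
theorem haar_finite {K : Type*} [AddCommGroup K] [TopologicalSpace K] [IsTopologicalAddGroup K]
    [DiscreteTopology K] [MeasurableSpace K] [BorelSpace K] (ν : Measure K) [ν.IsAddHaarMeasure]
    (s : Finset K) : ν (s : Set K) = s.card * ν {0} := by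
  rw [← sum_measure_singleton]
  simp [Measure.addHaar_singleton]

/-- A compact set containing a given compact set and whose interior translates by `K` cover. -/
theorem exists_compact_cover (K : AddSubgroup G) [CompactSpace (G ⧸ K)] (U : Set G)
    (hU : IsCompact U) :
    ∃ C : Set G, IsCompact C ∧ U ⊆ C ∧ ∀ x : G, ∃ k ∈ K, x - k ∈ interior C := by
  obtain ⟨W, hWn, -, hWc⟩ := local_compact_nhds (x := (0 : G)) (n := univ) univ_mem
  have h0 : (0 : G) ∈ interior W := mem_interior_iff_mem_nhds.2 hWn
  obtain ⟨t, ht⟩ := (isCompact_univ (X := G ⧸ K)).elim_finite_subcover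
    (fun g : G => ((↑) : G → G ⧸ K) '' ((fun w => g + w) '' interior W))
    (fun g => QuotientAddGroup.isOpenMap_coe _ ((isOpenMap_add_left g) _ isOpen_interior))
    (by
      intro q _
      induction q using QuotientAddGroup.induction_on with
      | H g => exact mem_iUnion.2 ⟨g, g, ⟨0, h0, by simp⟩, rfl⟩)
  refine ⟨U ∪ ⋃ g ∈ t, (fun w => g + w) '' W, ?_, subset_union_left, ?_⟩
  · refine hU.union (t.isCompact_biUnion fun g _ => ?_)
    exact hWc.image (continuous_const.add continuous_id)
  · intro x
    have hx := ht (mem_univ (x : G ⧸ K))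
    simp only [mem_iUnion] at hx
    obtain ⟨g, hg, y, ⟨w, hw, rfl⟩, hy⟩ := hx
    have hk : -(g + w) + x ∈ K := QuotientAddGroup.eq.1 hy
    refine ⟨-(g + w) + x, hk, ?_⟩
    have : x - (-(g + w) + x) = g + w := by abel
    rw [this]
    have hop : IsOpen ((fun w => g + w) '' interior W) := (isOpenMap_add_left g) _ isOpen_interior
    refine interior_maximal ?_ hop ⟨w, hw, rfl⟩
    refine Subset.trans ?_ subset_union_right
    intro z hz
    exact mem_iUnion₂.2 ⟨g, hg, image_mono interior_subset hz⟩

theorem exists_finite_cover (K : AddSubgroup G) (C Q : Set G) (hQ : IsCompact Q)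
    (hC : ∀ x : G, ∃ k ∈ K, x - k ∈ interior C) :
    ∃ t : Finset K, (0 : K) ∈ t ∧ Q ⊆ ((↑) : K → G) '' (t : Set K) + C := by
  classical
  obtain ⟨t, ht⟩ := hQ.elim_finite_subcover
    (fun k : K => (fun w => (k : G) + w) '' interior C)
    (fun k => (isOpenMap_add_left (k : G)) _ isOpen_interior)
    (by
      intro x _
      obtain ⟨k, hk, hx⟩ := hC x
      exact mem_iUnion.2 ⟨⟨k, hk⟩, x - k, hx, by simp⟩)
  refine ⟨insert 0 t, Finset.mem_insert_self _ _, ?_⟩
  intro x hx
  have := ht hx
  simp only [mem_iUnion] at this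
  obtain ⟨k, hk, w, hw, rfl⟩ := this
  exact ⟨k, ⟨k, by simp [hk], rfl⟩, w, interior_subset hw, rfl⟩

theorem measure_add_le (μ : Measure G) [μ.IsAddHaarMeasure] (K : AddSubgroup G)
    (s : Finset K) (C : Set G) :
    μ (((↑) : K → G) '' (s : Set K) + C) ≤ s.card * μ C := by
  have h1 : ((↑) : K → G) '' (s : Set K) + C = ⋃ k ∈ s, (fun w => (k : G) + w) '' C := by
    rw [← Set.iUnion_add_left_image, Set.biUnion_image]
    rfl
  rw [h1]
  refine (measure_biUnion_finset_le _ _).trans ?_
  simp [Set.image_add_left, measure_preimage_add]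

theorem measure_add_eq (μ : Measure G) [μ.IsAddHaarMeasure] (K : AddSubgroup G)
    (s : Finset K) (W : Set G) (hW : IsCompact W)
    (hd : ∀ v ∈ W, ∀ w ∈ W, v - w ∈ K → v - w = 0) :
    μ (((↑) : K → G) '' (s : Set K) + W) = s.card * μ W := by
  have h1 : ((↑) : K → G) '' (s : Set K) + W = ⋃ k ∈ s, (fun w => (k : G) + w) '' W := by
    rw [← Set.iUnion_add_left_image, Set.biUnion_image]
    rfl
  rw [h1, measure_biUnion_finset]
  · simp [Set.image_add_left, measure_preimage_add]
  · intro k _ l _ hkl
    refine Set.disjoint_left.2 ?_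
    rintro _ ⟨v, hv, rfl⟩ ⟨w, hw, h⟩
    apply hkl
    have h2 : v - w = (l : G) - k := by
      rw [sub_eq_sub_iff_add_eq_add]
      simpa [add_comm] using h.symm
    have h3 := hd v hv w hw (by rw [h2]; exact K.sub_mem l.2 k.2)
    rw [h2] at h3
    exact Subtype.ext (sub_eq_zero.1 h3).symm
  · intro k _
    exact (hW.image (continuous_const.add continuous_id)).isClosed.measurableSet

/-- **Algebraic entropy and invariant uniform discrete subgroups.**
Let `G` be a Hausdorff locally compact abelian group, `φ` a continuous endomorphism of `G`, and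
`K` a `φ`-invariant subgroup which is discrete and has compact quotient `G ⧸ K`.  Then
`h_A(φ) = h_A(φ restricted to K)`, for every choice of Haar measures `μ` on `G` and `ν` on `K`
(with the subspace topology). -/
theorem result (μ : Measure G) [μ.IsAddHaarMeasure]
    (φ : G →+ G) (hφ : Continuous φ) (K : AddSubgroup G) (hK : ∀ x ∈ K, φ x ∈ K)
    [DiscreteTopology K] [CompactSpace (G ⧸ K)] (ν : Measure K) [ν.IsAddHaarMeasure] :
    algEntropy μ φ = algEntropy ν (restrictEnd φ K hK) := by
  classical
  have hν0 : ν {(0 : K)} ≠ 0 := (isOpen_discrete _).measure_ne_zero ν (singleton_nonempty _)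
  have hνt : ν {(0 : K)} ≠ ⊤ := isCompact_singleton.measure_ne_top
  apply le_antisymm
  · refine iSup_le fun U => iSup_le fun hUc => iSup_le fun hU => ?_
    obtain ⟨C, hCc, hUC, hC⟩ := exists_compact_cover K U hUc
    have h0U : (0 : G) ∈ U := mem_of_mem_nhds hU
    have h0C : (0 : G) ∈ C := hUC h0U
    obtain ⟨t, h0t, ht⟩ := exists_finite_cover K C (φ '' C + C)
      ((hCc.image hφ).add hCc) hC
    have hμC0 : μ C ≠ 0 := by
      have : C ∈ 𝓝 (0 : G) := mem_of_superset hU hUC
      exact (Measure.measure_pos_of_mem_nhds μ this).ne'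
    have hμCt : μ C ≠ ⊤ := hCc.measure_ne_top
    refine le_trans ?_ (le_iSup_of_le (t : Set K) (le_iSup_of_le t.finite_toSet.isCompact
      (le_iSup_of_le (by rw [nhds_discrete]; exact h0t) le_rfl)))
    refine growth_le (A := μ C / ν {(0 : K)}) ?_ ?_ (Eventually.of_forall fun n => ?_)
    · exact (ENNReal.div_pos hμC0 hνt).ne'
    · exact ENNReal.div_ne_top hμCt hν0
    · have hfin := traj_finite (restrictEnd φ K hK) (t.finite_toSet) n
      obtain ⟨s, hs⟩ : ∃ s : Finset K, (s : Set K) = traj (restrictEnd φ K hK) (t : Set K) n :=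
        ⟨hfin.toFinset, by simp⟩
      calc μ (traj φ U n) ≤ μ (traj φ C n) := measure_mono (traj_mono φ hUC n)
        _ ≤ μ (traj φ (((↑) : K → G) '' (t : Set K)) n + C) :=
            measure_mono (traj_subset φ h0C ht n)
        _ = μ (((↑) : K → G) '' (s : Set K) + C) := by rw [← image_traj φ K hK, hs]
        _ ≤ s.card * μ C := measure_add_le μ K s C
        _ = μ C / ν {(0 : K)} * (s.card * ν {(0 : K)}) := by
            rw [mul_comm (s.card : ENNReal) (ν {(0 : K)}), ← mul_assoc,
              ENNReal.div_mul_cancel hν0 hνt, mul_comm]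
        _ = μ C / ν {(0 : K)} * ν (traj (restrictEnd φ K hK) (t : Set K) n) := by
            rw [← haar_finite, hs]
  · refine iSup_le fun V => iSup_le fun hVc => iSup_le fun hV => ?_
    have hVf : V.Finite := hVc.finite_of_discrete
    have h0V : (0 : K) ∈ V := mem_of_mem_nhds hV
    obtain ⟨N, hN, hNK⟩ : ∃ N ∈ 𝓝 (0 : G), ∀ x ∈ N, x ∈ K → x = 0 := by
      have h1 : ({0} : Set K) ∈ 𝓝 (0 : K) := by rw [nhds_discrete]; exact mem_singleton _
      obtain ⟨N, hN, hN'⟩ := (mem_nhds_subtype _ _ _).1 h1
      exact ⟨N, hN, fun x hx hxK => congrArg Subtype.val (hN' (show (⟨x, hxK⟩ : K) ∈ _ from hx))⟩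
    obtain ⟨W₁, hW₁, hW₁N⟩ := exists_nhds_half_neg hN
    obtain ⟨W, hWn, hWW₁, hWc⟩ := local_compact_nhds hW₁
    have h0W : (0 : G) ∈ W := mem_of_mem_nhds hWn
    have hd : ∀ v ∈ W, ∀ w ∈ W, v - w ∈ K → v - w = 0 := fun v hv w hw h =>
      hNK _ (hW₁N v (hWW₁ hv) w (hWW₁ hw)) h
    have hμW0 : μ W ≠ 0 := (Measure.measure_pos_of_mem_nhds μ hWn).ne'
    have hμWt : μ W ≠ ⊤ := hWc.measure_ne_top
    set U : Set G := ((↑) : K → G) '' V + W with hUdef
    have hVU : ((↑) : K → G) '' V ⊆ U := fun x hx => ⟨x, hx, 0, h0W, by simp⟩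
    have hUc : IsCompact U := (hVf.image _).isCompact.add hWc
    have hU : U ∈ 𝓝 (0 : G) := by
      refine mem_of_superset hWn fun w hw => ⟨0, ⟨0, h0V, by simp⟩, w, hw, by simp⟩
    refine le_trans ?_ (le_iSup_of_le U (le_iSup_of_le hUc (le_iSup_of_le hU le_rfl)))
    refine growth_le (A := ν {(0 : K)} / μ W) ?_ ?_ ?_
    · exact (ENNReal.div_pos hν0 hμWt).ne'
    · exact ENNReal.div_ne_top hνt hμW0
    · filter_upwards [eventually_ge_atTop 1] with n hn
      obtain ⟨m, rfl⟩ : ∃ m, n = m + 1 := ⟨n - 1, by omega⟩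
      have hfin := traj_finite (restrictEnd φ K hK) hVf (m + 1)
      obtain ⟨s, hs⟩ : ∃ s : Finset K, (s : Set K) = traj (restrictEnd φ K hK) V (m + 1) :=
        ⟨hfin.toFinset, by simp⟩
      have hsub : ((↑) : K → G) '' (s : Set K) + W ⊆ traj φ U (m + 1) := by
        rw [hs, image_traj φ K hK, traj_succ, traj_succ]
        calc ((↑) : K → G) '' V + φ '' traj φ (((↑) : K → G) '' V) m + W
            = U + φ '' traj φ (((↑) : K → G) '' V) m := by
              rw [hUdef, add_right_comm]
          _ ⊆ U + φ '' traj φ U m :=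
              Set.add_subset_add Subset.rfl (image_mono (traj_mono φ hVU m))
      calc ν (traj (restrictEnd φ K hK) V (m + 1)) = s.card * ν {(0 : K)} := by
            rw [← hs, haar_finite]
        _ = ν {(0 : K)} / μ W * (s.card * μ W) := by
            rw [mul_comm (s.card : ENNReal) (μ W), ← mul_assoc,
              ENNReal.div_mul_cancel hμW0 hμWt, mul_comm]
        _ = ν {(0 : K)} / μ W * μ (((↑) : K → G) '' (s : Set K) + W) := by
            rw [measure_add_eq μ K s W hWc hd]
        _ ≤ ν {(0 : K)} / μ W * μ (traj φ U (m + 1)) := by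
            gcongr

end main

end Pool.Agent.Results.MP_5d7a45_an.UniformDiscrete
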